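import Pool.Agent.Lib.VanCone.Gonch
import Pool.Agent.Lib.HCN.StN

/-!
# The end of Goncharov's polylogarithmic complex in high weight

For a field `F` of finite transcendence degree over a finite field the two last cohomology groups
of Goncharov's complex `Γ(F, n)` vanish rationally for all large `n`. The rational vector space
`Fˣ ⊗ ℚ` is `UQ F` and `sy a` is the class of `a` in it (both in `Pool.Agent.Lib.VanCone.St`).
-/

open scoped TensorProduct
open Pool.Agent.Lib.VanCone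

namespace Pool.Agent.Results.MP_b52861_ag.GoncharovTop

universe u v

/-- The class of `x` in `Fˣ ⊗ ℚ`; it is zero for `x = 0`. -/
noncomputable def cl {F : Type u} [Field F] (x : F) : UQ F := by
  classical exact if h : x = 0 then 0 else sy (Units.mk0 x h)

/-- The exterior algebra of `Fˣ ⊗ ℚ`. -/
def Ext (F : Type u) [Field F] : Type u := ExteriorAlgebra ℚ (UQ F)

noncomputable instance instRingExt (F : Type u) [Field F] : Ring (Ext F) :=
  (inferInstance : Ring (ExteriorAlgebra ℚ (UQ F)))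

noncomputable instance instAlgebraExt (F : Type u) [Field F] : Algebra ℚ (Ext F) :=
  (inferInstance : Algebra ℚ (ExteriorAlgebra ℚ (UQ F)))

/-- The element `x` of degree one of the exterior algebra. -/
noncomputable def el {F : Type u} [Field F] (x : F) : Ext F := ExteriorAlgebra.ι ℚ (cl x)

/-- The degree `n` part of the exterior algebra. -/
noncomputable def part (F : Type u) [Field F] (n : ℕ) : Submodule ℚ (Ext F) := ⋀[ℚ]^n (UQ F)

/-- The exterior power `Λⁿ(Fˣ ⊗ ℚ)`. -/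
def Wd (F : Type u) [Field F] (n : ℕ) : Type u := part F n

noncomputable instance instAddCommGroupWd (F : Type u) [Field F] (n : ℕ) :
    AddCommGroup (Wd F n) := (inferInstance : AddCommGroup (part F n))

noncomputable instance instModuleWd (F : Type u) [Field F] (n : ℕ) : Module ℚ (Wd F n) :=
  (inferInstance : Module ℚ (part F n))

/-- An element of `Λⁿ(Fˣ ⊗ ℚ)` as an element of the exterior algebra. -/
def Wd.val {F : Type u} [Field F] {n : ℕ} (ω : Wd F n) : Ext F := Subtype.val ω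

theorem el_mul_mem {F : Type u} [Field F] (n : ℕ) (x : F) (ω : Wd F n) :
    el x * ω.val ∈ part F (n + 1) := ι_mul_mem (cl x) n ω.val (Subtype.prop ω)

/-- The product `x ∧ ω` for `ω` in `Λⁿ`. -/
noncomputable def wedgeFun {F : Type u} [Field F] (n : ℕ) (x : F) (ω : Wd F n) : Wd F (n + 1) :=
  ⟨el x * ω.val, el_mul_mem n x ω⟩

theorem wedgeFun_add {F : Type u} [Field F] (n : ℕ) (x : F) (a b : Wd F n) :
    wedgeFun n x (a + b) = wedgeFun n x a + wedgeFun n x b :=
  Subtype.ext (mul_add (el x) a.val b.val)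

theorem wedgeFun_smul {F : Type u} [Field F] (n : ℕ) (x : F) (q : ℚ) (a : Wd F n) :
    wedgeFun n x (q • a) = q • wedgeFun n x a :=
  Subtype.ext (mul_smul_comm q (el x) a.val)

/-- The relations defining `B₂(F)`: `{0} = {1} = 0` and the five term relations
`{x} - {y} + {y/x} - {(1 - x⁻¹)/(1 - y⁻¹)} + {(1 - x)/(1 - y)}` for different `x, y ≠ 0, 1`. -/
inductive BlochRel (F : Type u) [Field F] : (F →₀ ℚ) → Prop
  | zero : BlochRel F (Finsupp.single 0 1)
  | one : BlochRel F (Finsupp.single 1 1)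
  | five (x y : F) (hx : x ≠ 0) (hx' : x ≠ 1) (hy : y ≠ 0) (hy' : y ≠ 1) (hxy : x ≠ y) :
      BlochRel F (Finsupp.single x 1 - Finsupp.single y 1 + Finsupp.single (y / x) 1 -
        Finsupp.single ((1 - x⁻¹) / (1 - y⁻¹)) 1 + Finsupp.single ((1 - x) / (1 - y)) 1)

/-- Goncharov's group `B₂(F) ⊗ ℚ`. -/
def B₂ (F : Type u) [Field F] : Type u := (F →₀ ℚ) ⧸ Submodule.span ℚ {t | BlochRel F t}

noncomputable instance instAddCommGroupB₂ (F : Type u) [Field F] : AddCommGroup (B₂ F) :=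
  (inferInstance : AddCommGroup ((F →₀ ℚ) ⧸ Submodule.span ℚ {t | BlochRel F t}))

noncomputable instance instModuleB₂ (F : Type u) [Field F] : Module ℚ (B₂ F) :=
  (inferInstance : Module ℚ ((F →₀ ℚ) ⧸ Submodule.span ℚ {t | BlochRel F t}))

/-- The generator `{x}₂` of `B₂(F) ⊗ ℚ`. -/
noncomputable def br {F : Type u} [Field F] (x : F) : B₂ F :=
  Submodule.Quotient.mk (Finsupp.single x 1)

section PartB

variable (F : Type u) [Field F]

/-- The map `Λⁿ → Λⁿ⁺¹`, `ω ↦ x ∧ ω`. -/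
noncomputable def wedge (n : ℕ) (x : F) : Wd F n →ₗ[ℚ] Wd F (n + 1) where
  toFun := wedgeFun n x
  map_add' := wedgeFun_add n x
  map_smul' := wedgeFun_smul n x

/-- The map `ℚ[F] → Hom(Λⁿ, Λⁿ⁺²)`, `{x} ↦ (ω ↦ (1 - x) ∧ x ∧ ω)`. -/
noncomputable def pre₀ (n : ℕ) : (F →₀ ℚ) →ₗ[ℚ] (Wd F n →ₗ[ℚ] Wd F (n + 2)) :=
  Finsupp.linearCombination ℚ fun x : F => (wedge F (n + 1) (1 - x)).comp (wedge F n x)

/-- An element of `Λⁿ` as an element of the exterior algebra, without the type synonym. -/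
def Wd.v {F : Type u} [Field F] {n : ℕ} (ω : Wd F n) : EA F := ω.val

theorem wedge_val (n : ℕ) (x : F) (ω : Wd F n) : (wedge F n x ω).v = ix x * ω.v := rfl

theorem pre₀_single (n : ℕ) (x : F) (ω : Wd F n) :
    (pre₀ F n (Finsupp.single x 1) ω).v = ix (1 - x) * ix x * ω.v := by
  unfold pre₀
  rw [Finsupp.linearCombination_single, one_smul, LinearMap.comp_apply, wedge_val, wedge_val,
    mul_assoc]

theorem val_add {n : ℕ} (a b : Wd F n) : (a + b).v = a.v + b.v := rfl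
theorem val_sub {n : ℕ} (a b : Wd F n) : (a - b).v = a.v - b.v := rfl
theorem val_zero {n : ℕ} : (0 : Wd F n).v = 0 := rfl
theorem val_smul {n : ℕ} (q : ℚ) (a : Wd F n) : (q • a).v = q • a.v := rfl
theorem val_inj {n : ℕ} {a b : Wd F n} (h : a.v = b.v) : a = b := Subtype.ext h

theorem ix_zero : ix (0 : F) = 0 := by
  unfold ix sF; simp

theorem five_wedge (x y : F) (hx : x ≠ 0) (hx' : x ≠ 1) (hy : y ≠ 0) (hy' : y ≠ 1)
    (hxy : x ≠ y) : ix (1 - x) * ix x - ix (1 - y) * ix y + ix (1 - y / x) * ix (y / x) -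
      ix (1 - (1 - x⁻¹) / (1 - y⁻¹)) * ix ((1 - x⁻¹) / (1 - y⁻¹)) +
      ix (1 - (1 - x) / (1 - y)) * ix ((1 - x) / (1 - y)) = 0 := by
  have hX : Gd x := ⟨hx, hx'⟩
  have hY : Gd y := ⟨hy, hy'⟩
  have a1 : (1 : F) - x ≠ 0 := hX.one_sub.1
  have a2 : (1 : F) - y ≠ 0 := hY.one_sub.1
  have a3 : x - y ≠ 0 := sub_ne_zero.mpr hxy
  have f3 : ix (y / x) = ix y - ix x := ix_div hy hx
  have f5 : ix ((1 - x) / (1 - y)) = ix (1 - x) - ix (1 - y) := ix_div a1 a2
  have e4 : (1 - x⁻¹) / (1 - y⁻¹) = (y * (1 - x)) / (x * (1 - y)) := by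
    have b3 : 1 - x⁻¹ = -(1 - x) / x := by field_simp; ring
    have b4 : 1 - y⁻¹ = -(1 - y) / y := by field_simp; ring
    rw [b3, b4]
    field_simp
  have mul' : ∀ {p q : F}, p ≠ 0 → q ≠ 0 → ix (p * q) = ix p + ix q := by
    intro p q hp hq
    unfold ix; rw [sF_mul hp hq, map_add]
  have f4 : ix ((1 - x⁻¹) / (1 - y⁻¹)) = (ix y + ix (1 - x)) - (ix x + ix (1 - y)) := by
    rw [e4, ix_div (mul_ne_zero hy a1) (mul_ne_zero hx a2), mul' hy a1, mul' hx a2]
  have g3 : ix (1 - y / x) = ix (x - y) - ix x := by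
    rw [show 1 - y / x = (x - y) / x by field_simp, ix_div a3 hx]
  have g5 : ix (1 - (1 - x) / (1 - y)) = ix (x - y) - ix (1 - y) := by
    rw [show 1 - (1 - x) / (1 - y) = (x - y) / (1 - y) by field_simp; ring, ix_div a3 a2]
  have g4 : ix (1 - (1 - x⁻¹) / (1 - y⁻¹)) = ix (x - y) - (ix x + ix (1 - y)) := by
    rw [e4, show 1 - y * (1 - x) / (x * (1 - y)) = (x - y) / (x * (1 - y)) by
      field_simp; ring, ix_div a3 (mul_ne_zero hx a2), mul' hx a2]
  rw [f3, f4, f5, g3, g4, g5]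
  have s1 := ix_sq x
  have s2 := ix_sq (1 - y)
  have c1 := ix_swap (x - y) x
  have c2 := ix_swap (1 - x) x
  have c3 := ix_swap (1 - y) x
  have c4 := ix_swap (1 - y) y
  have c5 := ix_swap (1 - y) (1 - x)
  simp only [mul_add, mul_sub, add_mul, sub_mul, s1, s2, c2, c3, c4, c5]
  abel

theorem pre₀_rel (n : ℕ) (t : F →₀ ℚ) (ht : BlochRel F t) : pre₀ F n t = 0 := by
  apply LinearMap.ext
  intro ω
  apply val_inj
  rw [LinearMap.zero_apply, val_zero]
  cases ht with
  | zero => rw [pre₀_single, ix_zero, mul_zero, zero_mul]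
  | one => rw [pre₀_single, sub_self, ix_zero, zero_mul, zero_mul]
  | five x y hx hx' hy hy' hxy =>
    simp only [map_add, map_sub, LinearMap.add_apply, LinearMap.sub_apply, val_add, val_sub,
      pre₀_single]
    rw [← sub_mul, ← add_mul, ← sub_mul, ← add_mul, five_wedge F x y hx hx' hy hy' hxy, zero_mul]

theorem span_le_ker (n : ℕ) :
    Submodule.span ℚ {t | BlochRel F t} ≤ LinearMap.ker (pre₀ F n) :=
  Submodule.span_le.mpr fun t ht => pre₀_rel F n t ht

/-- The map `B₂(F) ⊗ ℚ → Hom(Λⁿ, Λⁿ⁺²)`, `{x}₂ ↦ (ω ↦ (1 - x) ∧ x ∧ ω)`. -/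
noncomputable def bil₀ (n : ℕ) : B₂ F →ₗ[ℚ] (Wd F n →ₗ[ℚ] Wd F (n + 2)) :=
  (Submodule.span ℚ {t | BlochRel F t}).liftQ (pre₀ F n) (span_le_ker F n)

/-- The rational vector space `B₂(F) ⊗ Λⁿ`. -/
def BW (F : Type u) [Field F] (n : ℕ) : Type u := B₂ F ⊗[ℚ] Wd F n

noncomputable instance instAddCommGroupBW (F : Type u) [Field F] (n : ℕ) :
    AddCommGroup (BW F n) := (inferInstance : AddCommGroup (B₂ F ⊗[ℚ] Wd F n))

noncomputable instance instModuleBW (F : Type u) [Field F] (n : ℕ) : Module ℚ (BW F n) :=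
  (inferInstance : Module ℚ (B₂ F ⊗[ℚ] Wd F n))

/-- The last differential `B₂(F) ⊗ Λⁿ → Λⁿ⁺²` of Goncharov's complex of weight `n + 2`, rationally:
`{x}₂ ⊗ ω ↦ (1 - x) ∧ x ∧ ω`. -/
noncomputable def d₀ (n : ℕ) : BW F n →ₗ[ℚ] Wd F (n + 2) := TensorProduct.lift (bil₀ F n)

/-- The element `b ⊗ ω` of `B₂(F) ⊗ Λⁿ`. -/
noncomputable def tm {F : Type u} [Field F] {n : ℕ} (b : B₂ F) (ω : Wd F n) : BW F n := b ⊗ₜ[ℚ] ω

/-- The value `∑ {x}₂ ⊗ x ∧ f(x)` of the next differential at `∑ {x} ⊗ f(x)`. -/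
noncomputable def fun₁ {F : Type u} [Field F] (n : ℕ) (f : F →₀ Wd F n) : BW F (n + 1) :=
  f.sum fun x ω => tm (br x) (wedge F n x ω)

theorem fun₁_add {F : Type u} [Field F] (n : ℕ) (f g : F →₀ Wd F n) :
    fun₁ n (f + g) = fun₁ n f + fun₁ n g := by
  classical
  unfold fun₁
  refine Finsupp.sum_add_index' (fun x => ?_) (fun x a b => ?_)
  · rw [map_zero]
    exact TensorProduct.tmul_zero _ _
  · rw [map_add]
    exact TensorProduct.tmul_add _ _ _

theorem fun₁_smul {F : Type u} [Field F] (n : ℕ) (q : ℚ) (f : F →₀ Wd F n) :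
    fun₁ n (q • f) = q • fun₁ n f := by
  classical
  unfold fun₁
  rw [Finsupp.sum_smul_index', Finsupp.smul_sum]
  · apply Finsupp.sum_congr
    intro x _
    rw [map_smul]
    exact TensorProduct.tmul_smul _ _ _
  · intro x
    rw [map_zero]
    exact TensorProduct.tmul_zero _ _

/-- The last but one differential `B₃(F) ⊗ Λⁿ → B₂(F) ⊗ Λⁿ⁺¹` of Goncharov's complex of weight
`n + 3`, rationally and precomposed with the surjection `ℚ[F] → B₃(F) ⊗ ℚ`:
`{x} ⊗ ω ↦ {x}₂ ⊗ x ∧ ω`. The space `ℚ[F] ⊗ Λⁿ` is written as the space of finitely supported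
functions from `F` to `Λⁿ`. -/
noncomputable def d₁ (n : ℕ) : (F →₀ Wd F n) →ₗ[ℚ] BW F (n + 1) where
  toFun := fun₁ n
  map_add' := fun₁_add n
  map_smul' := fun₁_smul n

/-! ### Proofs -/

theorem isBloch : IsBloch F (br (F := F)) where
  zero := (Submodule.Quotient.mk_eq_zero _).mpr (Submodule.subset_span BlochRel.zero)
  one := (Submodule.Quotient.mk_eq_zero _).mpr (Submodule.subset_span BlochRel.one)
  five := by
    intro x y hx hy hxy
    have h := (Submodule.Quotient.mk_eq_zero (Submodule.span ℚ {t | BlochRel F t})).mpr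
      (Submodule.subset_span (BlochRel.five x y hx.1 hx.2 hy.1 hy.2 hxy))
    rw [Submodule.Quotient.mk_add, Submodule.Quotient.mk_sub, Submodule.Quotient.mk_add,
      Submodule.Quotient.mk_sub] at h
    exact h

theorem mem_span_br (b : B₂ F) : b ∈ Submodule.span ℚ (Set.range (br (F := F))) := by
  obtain ⟨f, rfl⟩ := Submodule.Quotient.mk_surjective (Submodule.span ℚ {t | BlochRel F t}) b
  induction f using Finsupp.induction_linear with
  | zero => exact Submodule.zero_mem _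
  | add f g hf hg => exact Submodule.add_mem _ hf hg
  | single x q =>
    have : Finsupp.single x q = q • Finsupp.single x (1 : ℚ) := by
      rw [Finsupp.smul_single, smul_eq_mul, mul_one]
    rw [this]
    exact Submodule.smul_mem _ q (Submodule.subset_span (Set.mem_range_self x))

/-- the map `{x}₂ ↦ (1 - x) ∧ x` to the exterior algebra -/
noncomputable def preδ : (F →₀ ℚ) →ₗ[ℚ] EA F :=
  Finsupp.linearCombination ℚ fun x : F => ix (1 - x) * ix x

theorem preδ_rel (t : F →₀ ℚ) (ht : BlochRel F t) : preδ F t = 0 := by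
  unfold preδ
  cases ht with
  | zero => rw [Finsupp.linearCombination_single, ix_zero, mul_zero, smul_zero]
  | one => rw [Finsupp.linearCombination_single, sub_self, ix_zero, zero_mul, smul_zero]
  | five x y hx hx' hy hy' hxy =>
    simp only [map_add, map_sub, Finsupp.linearCombination_single, one_smul]
    exact five_wedge F x y hx hx' hy hy' hxy

/-- the map `{x}₂ ↦ (1 - x) ∧ x` to the exterior algebra -/
noncomputable def δ₂ : B₂ F →ₗ[ℚ] EA F :=
  (Submodule.span ℚ {t | BlochRel F t}).liftQ (preδ F)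
    (Submodule.span_le.mpr fun t ht => preδ_rel F t ht)

theorem δ₂_br (x : F) : δ₂ F (br x) = ix (1 - x) * ix x := by
  have h : δ₂ F (br x) = preδ F (Finsupp.single x 1) :=
    Submodule.liftQ_apply (Submodule.span ℚ {t | BlochRel F t}) (preδ F) (Finsupp.single x 1)
  rw [h]
  unfold preδ
  rw [Finsupp.linearCombination_single, one_smul]

theorem bil₀_br (n : ℕ) (x : F) (ω : Wd F n) :
    (bil₀ F n (br x) ω).v = ix (1 - x) * ix x * ω.v := by
  have h : bil₀ F n (br x) = pre₀ F n (Finsupp.single x 1) :=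
    Submodule.liftQ_apply (Submodule.span ℚ {t | BlochRel F t}) (pre₀ F n) (Finsupp.single x 1)
  rw [h, pre₀_single]

theorem δ₂_comm (b : B₂ F) (u : UQ F) :
    δ₂ F b * ExteriorAlgebra.ι ℚ u = ExteriorAlgebra.ι ℚ u * δ₂ F b := by
  refine Submodule.span_induction (p := fun b _ =>
    δ₂ F b * ExteriorAlgebra.ι ℚ u = ExteriorAlgebra.ι ℚ u * δ₂ F b) ?_ ?_ ?_ ?_ (mem_span_br F b)
  · rintro _ ⟨x, rfl⟩
    rw [δ₂_br]
    exact (two_central _ _ _).symm
  · simp
  · intro x y _ _ hx hy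
    rw [map_add, add_mul, mul_add, hx, hy]
  · intro q x _ hx
    rw [map_smul, smul_mul_assoc, mul_smul_comm, hx]

theorem δ₂_mem (b : B₂ F) : δ₂ F b ∈ La F 2 := by
  refine Submodule.span_induction (p := fun b _ => δ₂ F b ∈ La F 2) ?_ ?_ ?_ ?_ (mem_span_br F b)
  · rintro _ ⟨x, rfl⟩
    rw [δ₂_br, La, pow_two]
    exact Submodule.mul_mem_mul (LinearMap.mem_range_self _ _) (LinearMap.mem_range_self _ _)
  · rw [map_zero]; exact Submodule.zero_mem _
  · intro x y _ _ hx hy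
    rw [map_add]; exact Submodule.add_mem _ hx hy
  · intro q x _ hx
    rw [map_smul]; exact Submodule.smul_mem _ _ hx

/-- the inclusion `Λⁿ → Λ` -/
noncomputable def valL (n : ℕ) : Wd F n →ₗ[ℚ] EA F := Submodule.subtype (⋀[ℚ]^n (UQ F))

theorem valL_apply (n : ℕ) (ω : Wd F n) : valL F n ω = ω.v := rfl

/-- the inclusion `B₂ ⊗ Λⁿ → B₂ ⊗ Λ` -/
noncomputable def inc (n : ℕ) : (B₂ F ⊗[ℚ] Wd F n) →ₗ[ℚ] (B₂ F ⊗[ℚ] EA F) :=
  LinearMap.lTensor (B₂ F) (valL F n)

theorem inc_inj (n : ℕ) : Function.Injective (inc F n) :=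
  Module.Flat.lTensor_preserves_injective_linearMap _ (fun _ _ h => val_inj F h)

theorem inc_tmul (n : ℕ) (b : B₂ F) (ω : Wd F n) :
    inc F n (b ⊗ₜ[ℚ] ω) = b ⊗ₜ[ℚ] ω.v := rfl

theorem inc_mem (n : ℕ) (z : B₂ F ⊗[ℚ] Wd F n) : inc F n z ∈ BG (br (F := F)) n := by
  induction z using TensorProduct.induction_on with
  | zero => rw [map_zero]; exact Submodule.zero_mem _
  | add x y hx hy => rw [map_add]; exact Submodule.add_mem _ hx hy
  | tmul b ω =>
    rw [inc_tmul]
    refine Submodule.span_induction (p := fun b _ => b ⊗ₜ[ℚ] ω.v ∈ BG (br (F := F)) n)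
      ?_ ?_ ?_ ?_ (mem_span_br F b)
    · rintro _ ⟨x, rfl⟩
      exact Submodule.subset_span ⟨x, _, ω.2, rfl⟩
    · rw [TensorProduct.zero_tmul]; exact Submodule.zero_mem _
    · intro x y _ _ hx hy
      rw [TensorProduct.add_tmul]; exact Submodule.add_mem _ hx hy
    · intro q x _ hx
      rw [← TensorProduct.smul_tmul']; exact Submodule.smul_mem _ _ hx

/-- the differential on the tensor product, without the type synonym -/
noncomputable def d₀' (n : ℕ) : (B₂ F ⊗[ℚ] Wd F n) →ₗ[ℚ] Wd F (n + 2) :=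
  TensorProduct.lift (bil₀ F n)

theorem del0_inc (n : ℕ) (z : B₂ F ⊗[ℚ] Wd F n) : del0 (δ₂ F) (inc F n z) = (d₀' F n z).v := by
  induction z using TensorProduct.induction_on with
  | zero => rw [map_zero, map_zero, map_zero, val_zero]
  | add x y hx hy => rw [map_add, map_add, map_add, val_add, hx, hy]
  | tmul b ω =>
    rw [inc_tmul, del0_tmul]
    unfold d₀'
    rw [TensorProduct.lift.tmul]
    refine Submodule.span_induction (p := fun b _ => δ₂ F b * ω.v = (bil₀ F n b ω).v)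
      ?_ ?_ ?_ ?_ (mem_span_br F b)
    · rintro _ ⟨x, rfl⟩
      rw [δ₂_br, bil₀_br]
    · rw [map_zero, map_zero, zero_mul, LinearMap.zero_apply, val_zero]
    · intro x y _ _ hx hy
      rw [map_add, map_add, add_mul, LinearMap.add_apply, val_add, hx, hy]
    · intro q x _ hx
      rw [map_smul, map_smul, smul_mul_assoc, LinearMap.smul_apply, val_smul, hx]

theorem d₁_single (n : ℕ) (x : F) (ω : Wd F n) :
    d₁ F n (Finsupp.single x ω) = (br x ⊗ₜ[ℚ] wedge F n x ω : B₂ F ⊗[ℚ] Wd F (n + 1)) := by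
  change fun₁ n (Finsupp.single x ω) = _
  unfold fun₁
  rw [Finsupp.sum_single_index]
  · rfl
  · rw [map_zero]
    exact TensorProduct.tmul_zero _ _

theorem d₀_d₁ (n : ℕ) (t : F →₀ Wd F n) : d₀ F (n + 1) (d₁ F n t) = 0 := by
  induction t using Finsupp.induction_linear with
  | zero => rw [map_zero, map_zero]
  | add f g hf hg => rw [map_add, map_add, hf, hg, add_zero]
  | single x ω =>
    rw [d₁_single]
    apply val_inj
    change (d₀' F (n + 1) (br x ⊗ₜ[ℚ] wedge F n x ω)).v = 0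
    rw [← del0_inc, inc_tmul, del0_tmul, δ₂_br, wedge_val, mul_assoc, ← mul_assoc (ix x), ix_sq,
      zero_mul, mul_zero]

theorem R1_le (n : ℕ) (z : B₂ F ⊗[ℚ] Wd F (n + 1)) (hz : inc F (n + 1) z ∈ R1 (br (F := F)) n) :
    ∃ t, d₁ F n t = (show BW F (n + 1) from z) := by
  have key : ∀ y ∈ R1 (br (F := F)) n, ∃ t : F →₀ Wd F n,
      inc F (n + 1) (show B₂ F ⊗[ℚ] Wd F (n + 1) from d₁ F n t) = y := by
    intro y hy
    refine Submodule.span_induction (p := fun y _ => ∃ t : F →₀ Wd F n,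
      inc F (n + 1) (show B₂ F ⊗[ℚ] Wd F (n + 1) from d₁ F n t) = y) ?_ ?_ ?_ ?_ hy
    · rintro _ ⟨x, ω, hω, rfl⟩
      refine ⟨Finsupp.single x (show Wd F n from ⟨ω, hω⟩), ?_⟩
      rw [d₁_single]
      rfl
    · exact ⟨0, by rw [map_zero]; exact map_zero _⟩
    · rintro y y' _ _ ⟨t, ht⟩ ⟨t', ht'⟩
      refine ⟨t + t', ?_⟩
      rw [map_add, ← ht, ← ht']
      exact map_add (inc F (n + 1)) _ _
    · rintro q y _ ⟨t, ht⟩
      refine ⟨q • t, ?_⟩
      rw [map_smul, ← ht]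
      exact map_smul (inc F (n + 1)) q _
  obtain ⟨t, ht⟩ := key _ hz
  exact ⟨t, inc_inj F (n + 1) ht⟩

theorem partB (N : ℕ) (hN1 : 1 ≤ N) (hN : ∀ m, N ≤ m → ∀ ω ∈ La F m, ω ∈ stN F m) (m : ℕ)
    (hm : 2 * N + 1 ≤ m + 3) :
    Function.Exact (d₁ F m) (d₀ F (m + 1)) ∧ Function.Surjective (d₀ F (m + 1)) := by
  constructor
  · intro z
    constructor
    · intro hz
      have hz' : d₀' F (m + 1) z = 0 := hz
      have h1 := gonch_exact (isBloch F) (δ₂_br F) (δ₂_comm F) (δ₂_mem F) N hN1 hN m hm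
        (inc F (m + 1) z) (inc_mem F (m + 1) z)
        ((del0_inc F (m + 1) z).trans ((congrArg Wd.v hz').trans (val_zero F)))
      obtain ⟨t, ht⟩ := R1_le F m z h1
      exact ⟨t, ht⟩
    · rintro ⟨t, rfl⟩
      exact d₀_d₁ F m t
  · intro ω
    have key : ∀ η ∈ stN F (m + 3), ∃ z : B₂ F ⊗[ℚ] Wd F (m + 1), (d₀' F (m + 1) z).v = η := by
      intro η hη
      refine Submodule.span_induction (p := fun η _ =>
        ∃ z : B₂ F ⊗[ℚ] Wd F (m + 1), (d₀' F (m + 1) z).v = η) ?_ ?_ ?_ ?_ hη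
      · rintro _ ⟨a, b, hab, M, hM, q, hq, rfl⟩
        have hM' : M = m + 1 := by omega
        subst hM'
        refine ⟨br (b : F) ⊗ₜ[ℚ] (show Wd F (m + 1) from ⟨q, hq⟩), ?_⟩
        rw [← del0_inc, inc_tmul, del0_tmul, δ₂_br]
        have e : 1 - (b : F) = (a : F) := by rw [← hab]; ring
        rw [e]
        unfold ix stE
        rw [sF_unit, sF_unit]
        rfl
      · exact ⟨0, by rw [map_zero, val_zero]⟩
      · rintro η η' _ _ ⟨z, hz⟩ ⟨z', hz'⟩
        exact ⟨z + z', by rw [map_add, val_add, hz, hz']⟩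
      · rintro r η _ ⟨z, hz⟩
        exact ⟨r • z, by rw [map_smul, val_smul, hz]⟩
    obtain ⟨z, hz⟩ := key ω.v (hN (m + 3) (by omega) ω.v ω.2)
    exact ⟨z, val_inj F hz⟩

end PartB

/-- Let `F` be a field of transcendence degree at most `d` over a finite field, `N > d`,
`N ≥ 2 ^ (d + 1) - 3`. In every weight `n = m + 3 ≥ 2 N + 1` the end
`B₃(F) ⊗ Λⁿ⁻³ → B₂(F) ⊗ Λⁿ⁻² → Λⁿ → 0` of Goncharov's polylogarithmic complex `Γ(F, n)` (tensored
with `ℚ`) is exact. -/
theorem result {k : Type u} {F : Type v} [Field k] [Finite k] [Field F] [Algebra k F] (d N : ℕ)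
    (hd : Algebra.trdeg k F ≤ d) (hdN : d < N) (hN : 2 ^ (d + 1) ≤ N + 3) (m : ℕ)
    (hm : 2 * N + 1 ≤ m + 3) :
    Function.Exact (d₁ F m) (d₀ F (m + 1)) ∧ Function.Surjective (d₀ F (m + 1)) := by
  refine partB F N (by omega)
    (fun m hm ω hω => ext_mem_stN' (k := k) d m hd (by omega) (by omega) ω hω) m ?_
  exact hm

end Pool.Agent.Results.MP_b52861_ag.GoncharovTop
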