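import Pool.Agent.Lib.HCN.Main

/-!
# Bloch's higher Chow groups over finite fields: the support theorem

Let `A` be a noetherian algebra over a finite field `k` and `X = Spec A ∖ V(I)` an open subscheme of
its spectrum, whose residue fields at the points of codimension `c` have transcendence degree at
most `s` over `k`. For `n > s`, `n ≥ 2 ^ (s + 1) - 3` every class in Bloch's higher Chow group
`CH^(c + n)(X, n)` is killed by a positive integer on some open subscheme `U = Spec A ∖ V(J)` of `X`
whose complement in `X` has codimension larger than `c`.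
-/

namespace Pool.Agent.Results.MP_b52861_ag.HigherChowSupport

universe u v

theorem result {k : Type v} {A : Type u} [Field k] [Finite k] [CommRing A] [IsNoetherianRing A]
    [Algebra k A] (I : Ideal A) (c s n : ℕ)
    (hs : ∀ (p : Ideal A) [p.IsPrime], ¬ I ≤ p → p.height = c →
      Algebra.trdeg k p.ResidueField ≤ s)
    (hsn : s < n) (hn : 2 ^ (s + 1) ≤ n + 3) (x : Pool.Agent.Lib.HCU.HigherChow I (c + n) n) :
    ∃ N : ℕ, 0 < N ∧ ∃ (J : Ideal A) (hJ : J ≤ I),
      (∀ q : Ideal A, q.IsPrime → J ≤ q → ¬ I ≤ q → (c : ℕ∞) < q.height) ∧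
        N • Pool.Agent.Lib.HCU.res hJ (c + n) n x = 0 :=
  Pool.Agent.Lib.HCU.support_mainN (k := k) I c s n hs hsn hn x

end Pool.Agent.Results.MP_b52861_ag.HigherChowSupport
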