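import Pool.Agent.Lib.KTW.Main
import Pool.Agent.Lib.GLT.KRange3

/-!
# The weights of the rational K-theory of a field of transcendence degree `d` over a finite field

`F` a field of transcendence degree at most `d` over a finite field, `L ≥ 4`,
`L ≥ 2 ^ (d + 1) - 2`, `m ≥ 1`. If `(m + 1) L ≤ (J + 1) (L + 1) + 1` then `K_m(F) ⊗ ℚ` has no weights
`j > J`: its part of weight `j` is zero, and on all of `K_m(F) ⊗ ℚ` the Adams operations `ψ^r` are
combinations of `r, r ^ 2, ..., r ^ J`. For example `j ≥ (1 - 1 / (L + 1)) (m + 1)`.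
-/

namespace Pool.Agent.Results.MP_b52861_ag.KTheoryWeights

open KTW

theorem result {k F : Type} [Field k] [Finite k] [Field F] [Algebra k F] (d L : ℕ)
    (hd : Algebra.trdeg k F ≤ d) (hL4 : 4 ≤ L) (hL : 2 ^ (d + 1) ≤ L + 2) (m J : ℕ) (hm : 1 ≤ m)
    (h : (m + 1) * L ≤ (J + 1) * (L + 1) + 1) :
    (∀ j > J, wt F m j = ⊥) ∧
      ∀ x : KQ F m, ∃ y : ℕ → KQ F m, ∀ r ≥ 1,
        psiK F m r x = ∑ j ∈ Finset.Icc 1 J, (r : ℚ) ^ j • y j := by
  obtain ⟨N, rfl⟩ : ∃ N, L = N + 1 := ⟨L - 1, by omega⟩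
  have h' : N + m * (N + 1) ≤ (J + 1) * (N + 2) := by
    have h1 : (m + 1) * (N + 1) = m * (N + 1) + (N + 1) := by ring
    have h2 : (J + 1) * (N + 1 + 1) = (J + 1) * (N + 2) := rfl
    rw [h1, h2] at h
    omega
  have hs : ∀ n, J ≤ n → Function.Surjective (toK F m n) := fun n hn =>
    toK_range3 (k := k) d N hd (by omega) (by omega) m n hm
      (h'.trans (Nat.mul_le_mul_right _ (Nat.succ_le_succ hn)))
  refine ⟨fun j hj => wt_bot_of_surj F m J j hj hs, fun x => ?_⟩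
  obtain ⟨y, rfl⟩ := hs J le_rfl x
  exact psiK_poly F m J y

end Pool.Agent.Results.MP_b52861_ag.KTheoryWeights
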