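import Pool.Agent.Lib.GLS.Fin
import Pool.Agent.Lib.GLS.Low
import Pool.Agent.Lib.GLS.MatGL
import Pool.Agent.Lib.GLS.Bridge
import Pool.Agent.Lib.MilnorP.Main
import Pool.Agent.Lib.GLT.Fin3

/-!
# Homological stability of slope larger than one

`F` a field of transcendence degree at most `d` over a finite field, `L ≥ 4`,
`L ≥ 2 ^ (d + 1) - 2`. For `(c + 1) L ≤ n + 2` the map `H_m(GL_n(F); ℚ) → H_m(GL_(n+1)(F); ℚ)`,
`A ↦ diag(A, 1)`, is surjective for `m ≤ n + 1 + c` and injective for `m ≤ n + c`.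
-/

namespace Pool.Agent.Results.MP_b52861_ag.StableRange

open CategoryTheory GLS Module

/-- `A ↦ diag(A, 1)` on matrices -/
def blockMat (F : Type) [Field F] (n : ℕ) :
    Matrix (Fin n) (Fin n) F →* Matrix (Fin (n + 1)) (Fin (n + 1)) F where
  toFun A := (Matrix.fromBlocks A 0 0 (1 : Matrix (Fin 1) (Fin 1) F)).submatrix
    finSumFinEquiv.symm finSumFinEquiv.symm
  map_one' := by
    rw [Matrix.fromBlocks_one, Matrix.submatrix_one_equiv]
  map_mul' A B := by
    rw [Matrix.submatrix_mul_equiv, Matrix.fromBlocks_multiply]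
    simp

/-- the stabilization homomorphism `GL_n(F) → GL_(n+1)(F)`, `A ↦ diag(A, 1)` -/
def stab (F : Type) [Field F] (n : ℕ) : GL (Fin n) F →* GL (Fin (n + 1)) F :=
  Units.map (blockMat F n)

/-- the map `H_m(GL_n(F); ℚ) → H_m(GL_(n+1)(F); ℚ)` induced by `stab` and the identity of `ℚ` -/
noncomputable def stabH (F : Type) [Field F] (n m : ℕ) :
    groupHomology (Rep.trivial ℚ (GL (Fin n) F) ℚ) m →ₗ[ℚ]
      groupHomology (Rep.trivial ℚ (GL (Fin (n + 1)) F) ℚ) m :=
  (groupHomology.map (A := Rep.trivial ℚ (GL (Fin n) F) ℚ)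
    (B := Rep.trivial ℚ (GL (Fin (n + 1)) F) ℚ) (stab F n)
    (𝟙 (Rep.trivial ℚ (GL (Fin n) F) ℚ)) m).hom

theorem stabH_sur (F : Type) [Field F] (n m : ℕ) (h : (glTriv F (Fin n → F)).Sur m) :
    Function.Surjective (stabH F n m) := by
  have h1 := stabP_sur F n m h
  exact bridge_sur (A := Rep.trivial ℚ (GL (Fin n) F) ℚ)
    (B := Rep.trivial ℚ (GL (Fin (n + 1)) F) ℚ) (stab F n)
    (𝟙 (Rep.trivial ℚ (GL (Fin n) F) ℚ)) (stabP F n) rfl (fun _ => rfl) m h1

theorem stabH_inj (F : Type) [Field F] (n m : ℕ) (h : (glTriv F (Fin n → F)).Inj m) :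
    Function.Injective (stabH F n m) := by
  have h1 := stabP_inj F n m h
  exact bridge_inj (A := Rep.trivial ℚ (GL (Fin n) F) ℚ)
    (B := Rep.trivial ℚ (GL (Fin (n + 1)) F) ℚ) (stab F n)
    (𝟙 (Rep.trivial ℚ (GL (Fin n) F) ℚ)) (stabP F n) rfl (fun _ => rfl) m h1

theorem result {k F : Type} [Field k] [Finite k] [Field F] [Algebra k F] (d L : ℕ)
    (hd : Algebra.trdeg k F ≤ d) (hL4 : 4 ≤ L) (hL : 2 ^ (d + 1) ≤ L + 2) (n c : ℕ)
    (hn : (c + 1) * L ≤ n + 2) :
    (∀ m ≤ n + 1 + c, Function.Surjective (stabH F n m)) ∧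
      ∀ m ≤ n + c, Function.Injective (stabH F n m) := by
  rcases finite_or_infinite F with hF | hF
  · exact ⟨fun m _ => stabH_sur F n m (fin_stab F (Fin n → F) m).1,
      fun m _ => stabH_inj F n m (fin_stab F (Fin n → F) m).2⟩
  · obtain ⟨p, hpk⟩ := CharP.exists k
    have hpr : Fact p.Prime := ⟨CharP.char_is_prime k p⟩
    have hpF : CharP F p := charP_of_injective_algebraMap (algebraMap k F).injective p
    obtain ⟨N, rfl⟩ : ∃ N, L = N + 1 := ⟨L - 1, by omega⟩
    have hNv : ∀ (B : Type) [Ring B] (s : Fˣ → B), Pool.Agent.Lib.MilnorVan.IsSymb s →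
        ∀ f : Fin N → Fˣ, ((List.finRange N).map (fun i => s (f i))).prod = 0 :=
      fun B _ s hs f => Pool.Agent.Lib.MilnorP.vanish_field3 (k := k) hs d N hd (by omega)
        (by omega) f
    have hfr : finrank F (Fin n → F) = n := by simp
    have key : ∀ c' ≤ c, (glTriv F (Fin n → F)).Sur (c' + n + 1) ∧
        (glTriv F (Fin n → F)).Inj (c' + n) := by
      intro c' hc'
      have h1 : c' * (N + 1) ≤ c * (N + 1) := Nat.mul_le_mul_right _ hc'
      have h2 : (c + 1) * (N + 1) = c * (N + 1) + (N + 1) := by ring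
      have := stab_range3 p N (by omega) hNv c' (Fin n → F) (by rw [hfr]; omega)
      rwa [hfr] at this
    have low := fun m => stab_low F (Fin n → F) p m
    rw [hfr] at low
    refine ⟨fun m hm => stabH_sur F n m ?_, fun m hm => stabH_inj F n m ?_⟩
    · rcases Nat.lt_or_ge n m with h | h
      · have := (key (m - n - 1) (by omega)).1
        rwa [show m - n - 1 + n + 1 = m by omega] at this
      · exact (low m).1 h
    · rcases Nat.lt_or_ge m n with h | h
      · exact (low m).2 h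
      · have := (key (m - n) (by omega)).2
        rwa [show m - n + n = m by omega] at this

end Pool.Agent.Results.MP_b52861_ag.StableRange
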